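import Pool.Agent.Q303.FW.Tree

/-!
# Squares of Lindelöf trees of countable height, if all families of `ℵ₁` functions are bounded
-/

set_option autoImplicit false

open Set Topology Filter

namespace Pool.Agent.Q303.FW

/-- Every family of at most `ℵ₁` functions is bounded modulo finite sets. -/
def Bounding : Prop := ∀ F : Set (ℕ → ℕ), Cardinal.mk F ≤ Cardinal.aleph 1 →
  ∃ g : ℕ → ℕ, ∀ f ∈ F, ∀ᶠ n in atTop, f n ≤ g n

section

variable {T : Type} [PartialOrder T] [TopologicalSpace T]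

/-- the basic neighbourhoods -/
def WW (s : T) (F : Set T) : Set T := {z | s ≤ z ∧ ∀ a ∈ F, ¬ a ≤ z}

lemma fw_Ici (hT : ‹TopologicalSpace T› = fineWedge T) (t : T) : IsOpen (Ici t) := by
  rw [hT]
  exact TopologicalSpace.isOpen_generateFrom_of_mem (Or.inl ⟨t, rfl⟩)

lemma fw_compl (hT : ‹TopologicalSpace T› = fineWedge T) (t : T) : IsOpen (Ici t)ᶜ := by
  rw [hT]
  exact TopologicalSpace.isOpen_generateFrom_of_mem (Or.inr ⟨t, rfl⟩)

lemma isOpen_WW (hT : ‹TopologicalSpace T› = fineWedge T) (s : T) {F : Set T} (hF : F.Finite) :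
    IsOpen (WW s F) := by
  have e : WW s F = Ici s ∩ ⋂ a ∈ F, (Ici a)ᶜ := by
    ext z
    simp [WW]
  rw [e]
  exact (fw_Ici hT s).inter (hF.isOpen_biInter fun a _ => fw_compl hT a)

lemma exists_WW (hT : ‹TopologicalSpace T› = fineWedge T) {s : T} {U : Set T} (hU : IsOpen U)
    (hs : s ∈ U) : ∃ F : Set T, F.Finite ∧ (∀ a ∈ F, ¬ a ≤ s) ∧ WW s F ⊆ U := by
  have hU' : TopologicalSpace.GenerateOpen
      ({s | ∃ t : T, s = Ici t} ∪ {s | ∃ t : T, s = (Ici t)ᶜ}) U := by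
    rw [hT] at hU
    exact hU
  clear hU
  induction hU' with
  | basic V hV =>
    rcases hV with ⟨t, rfl⟩ | ⟨t, rfl⟩
    · exact ⟨∅, finite_empty, fun a ha => absurd ha (by simp), fun z hz => le_trans hs hz.1⟩
    · refine ⟨{t}, finite_singleton t, ?_, fun z hz => hz.2 t rfl⟩
      rintro a rfl
      exact hs
  | univ => exact ⟨∅, finite_empty, fun a ha => absurd ha (by simp), fun z _ => mem_univ z⟩
  | inter V V' _ _ ih ih' =>
    obtain ⟨F, h1, h2, h3⟩ := ih hs.1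
    obtain ⟨F', h1', h2', h3'⟩ := ih' hs.2
    refine ⟨F ∪ F', h1.union h1', ?_, fun z hz => ⟨h3 ⟨hz.1, fun a ha => hz.2 a (Or.inl ha)⟩,
      h3' ⟨hz.1, fun a ha => hz.2 a (Or.inr ha)⟩⟩⟩
    rintro a (ha | ha)
    · exact h2 a ha
    · exact h2' a ha
  | sUnion S _ ih =>
    obtain ⟨V, hV, hsV⟩ := hs
    obtain ⟨F, h1, h2, h3⟩ := ih V hV hsV
    exact ⟨F, h1, h2, fun z hz => ⟨V, hV, h3 hz⟩⟩

lemma comparable (ht : ∀ x : T, IsWellOrder {y : T // y < x} (· < ·)) {a b x : T} (ha : a ≤ x)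
    (hb : b ≤ x) : a ≤ b ∨ b < a := by
  rcases ha.eq_or_lt with rfl | ha
  · rcases hb.eq_or_lt with rfl | hb
    · exact Or.inl le_rfl
    · exact Or.inr hb
  · rcases hb.eq_or_lt with rfl | hb
    · exact Or.inl ha.le
    · haveI := ht x
      rcases trichotomous_of (fun p q : {y : T // y < x} => p < q) ⟨a, ha⟩ ⟨b, hb⟩ with h | h | h
      · exact Or.inl (le_of_lt h)
      · exact Or.inl (le_of_eq (congrArg Subtype.val h))
      · exact Or.inr h

/-- the points of level at least ω above the countable set `D` -/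
def EE (D : Set T) : Set T := {x | x ∉ D ∧ ∀ u < x, u ∈ D ∧ ∃ d ∈ D, u < d ∧ d < x}

/-- `x` is not covered with the bounds `g` -/
def GG (D : Set T) (e : T → ℕ) (g : ℕ → ℕ) (x : T) : Prop :=
  ∀ u ∈ D, u < x → ∃ d ∈ D, u < d ∧ d < x ∧ e d ≤ g (e u)

variable [LindelofSpace T]

lemma countable_GG (hT : ‹TopologicalSpace T› = fineWedge T) (hwf : WellFounded (α := T) (· < ·))
    {D : Set T} (hD : D.Countable) {e : T → ℕ} (he : InjOn e D) (g : ℕ → ℕ) :
    {x ∈ EE D | GG D e g x}.Countable := by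
  let S : T → Set T := fun u => {d ∈ D | e d ≤ g (e u) ∧ u < d}
  have hS : ∀ u, (S u).Finite := by
    intro u
    refine Set.Finite.of_finite_image (f := e) ?_ (he.mono fun d hd => hd.1)
    exact (finite_Iic (g (e u))).subset (by rintro _ ⟨d, hd, rfl⟩; exact hd.2.1)
  have hK : IsClosed (⋃ u ∈ D, WW u (S u))ᶜ :=
    (isOpen_biUnion fun u _ => isOpen_WW hT u (hS u)).isClosed_compl
  have hL : IsLindelof (⋃ u ∈ D, WW u (S u))ᶜ := hK.isLindelof
  let R : Set T := {z | z ∉ D ∧ ∀ u < z, u ∈ D}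
  obtain ⟨r, hr, hsub⟩ := hL.elim_countable_subcover (fun z : R => Ici (z : T))
    (fun z => fw_Ici hT _) (by
      intro k hk
      have hkD : k ∉ D := by
        intro h
        apply hk
        rw [mem_iUnion₂]
        exact ⟨k, h, le_rfl, fun a ha => not_le_of_gt ha.2.2⟩
      have hne : ({y | y ≤ k ∧ y ∉ D} : Set T).Nonempty := ⟨k, le_rfl, hkD⟩
      have h1 := hwf.min_mem {y | y ≤ k ∧ y ∉ D} hne
      have h2 : ∀ u < hwf.min {y | y ≤ k ∧ y ∉ D} hne, u ∈ D := by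
        intro u hu
        by_contra hc
        exact hwf.not_lt_min {y | y ≤ k ∧ y ∉ D} (x := u) ⟨hu.le.trans h1.1, hc⟩ hu
      exact mem_iUnion.2 ⟨⟨_, h1.2, h2⟩, h1.1⟩)
  refine (hr.image Subtype.val).mono ?_
  rintro x ⟨hx, hg⟩
  have hxK : x ∈ (⋃ u ∈ D, WW u (S u))ᶜ := by
    intro h
    rw [mem_iUnion₂] at h
    obtain ⟨u, hu, h1, h2⟩ := h
    have hux : u < x := lt_of_le_of_ne h1 (by rintro rfl; exact hx.1 hu)
    obtain ⟨d, hd, h3, h4, h5⟩ := hg u hu hux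
    exact h2 d ⟨hd, h5, h3⟩ h4.le
  obtain ⟨z, hz, hzx⟩ := mem_iUnion₂.1 (hsub hxK)
  have hzx' : (z : T) ≤ x := hzx
  rcases hzx'.eq_or_lt with h | h
  · exact ⟨z, hz, h⟩
  · exact absurd (hx.2 _ h).1 z.2.1

lemma countable_EE (hb : Bounding) (hT : ‹TopologicalSpace T› = fineWedge T)
    (hwf : WellFounded (α := T) (· < ·)) {D : Set T} (hD : D.Countable) : (EE D).Countable := by
  obtain ⟨e, he⟩ := countable_iff_exists_injOn.1 hD
  have hf : ∀ x : T, x ∈ EE D → ∃ f : ℕ → ℕ, GG D e f x := by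
    intro x hx
    have h1 : ∀ u : T, ∃ d : T, u ∈ D → u < x → d ∈ D ∧ u < d ∧ d < x := by
      intro u
      by_cases hu : u < x
      · obtain ⟨d, hd⟩ := (hx.2 u hu).2
        exact ⟨d, fun _ _ => hd⟩
      · exact ⟨u, fun _ h => absurd h hu⟩
    choose d hd using h1
    classical
    refine ⟨fun n => if h : ∃ u ∈ D, e u = n then e (d h.choose) else 0, ?_⟩
    intro u hu hux
    obtain ⟨h2, h3, h4⟩ := hd u hu hux
    refine ⟨d u, h2, h3, h4, ?_⟩
    have h : ∃ u' ∈ D, e u' = e u := ⟨u, hu, rfl⟩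
    have h5 : h.choose = u := he h.choose_spec.1 hu h.choose_spec.2
    show e (d u) ≤ (if h : ∃ u' ∈ D, e u' = e u then e (d h.choose) else 0)
    rw [dif_pos h, h5]
  choose! f hf using hf
  by_contra hE
  have h1 : Cardinal.aleph 1 ≤ Cardinal.mk (EE D) := by
    rw [← Cardinal.succ_aleph0, Order.succ_le_iff]
    rw [← Cardinal.le_aleph0_iff_set_countable] at hE
    exact not_le.1 hE
  obtain ⟨E', hE', hcard⟩ := Cardinal.le_mk_iff_exists_subset.1 h1
  obtain ⟨g, hg⟩ := hb (f '' E') (Cardinal.mk_image_le.trans hcard.le)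
  have h2 : E' ⊆ ⋃ M : ℕ, {x ∈ EE D | GG D e (fun n => max (g n) M) x} := by
    intro x hx
    obtain ⟨N, hN⟩ := eventually_atTop.1 (hg (f x) ⟨x, hx, rfl⟩)
    refine mem_iUnion.2 ⟨(Finset.range N).sup (f x), hE' hx, ?_⟩
    intro u hu hux
    obtain ⟨d, h3, h4, h5, h6⟩ := hf x (hE' hx) u hu hux
    refine ⟨d, h3, h4, h5, h6.trans ?_⟩
    rcases Nat.lt_or_ge (e u) N with h | h
    · exact (Finset.le_sup (f := f x) (Finset.mem_range.2 h)).trans (le_max_right _ _)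
    · exact (hN _ h).trans (le_max_left _ _)
  have h3 : E'.Countable := (countable_iUnion fun M => countable_GG hT hwf hD he _).mono h2
  rw [← Cardinal.le_aleph0_iff_set_countable, hcard] at h3
  exact absurd h3 (not_le.2 Cardinal.aleph0_lt_aleph_one)

/-- the points that are limits of elements of `F` -/
def XX (F : Set T) : Set T := {x | ∀ u < x, ∃ a ∈ F, u < a ∧ a ≤ x}

lemma countable_XX (hb : Bounding) (hT : ‹TopologicalSpace T› = fineWedge T)
    (hwf : WellFounded (α := T) (· < ·)) (hc : ∀ x : T, (Iic x).Countable) {F : Set T}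
    (hF : F.Countable) : (XX F).Countable := by
  have hD : (⋃ a ∈ F, Iic a).Countable := hF.biUnion fun a _ => hc a
  refine (hD.union (countable_EE hb hT hwf hD)).mono ?_
  intro x hx
  by_cases hxD : x ∈ ⋃ a ∈ F, Iic a
  · exact Or.inl hxD
  · refine Or.inr ⟨hxD, fun u hu => ?_⟩
    obtain ⟨a, ha, h1, h2⟩ := hx u hu
    have ha' : a ∈ ⋃ a ∈ F, Iic a := mem_iUnion₂.2 ⟨a, ha, le_rfl⟩
    have h3 : a < x := lt_of_le_of_ne h2 (by rintro rfl; exact hxD ha')
    exact ⟨mem_iUnion₂.2 ⟨a, ha, h1.le⟩, a, ha', h1, h3⟩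

/-- the step of the induction -/
lemma step (hb : Bounding) (hT : ‹TopologicalSpace T› = fineWedge T)
    (ht : ∀ x : T, IsWellOrder {y : T // y < x} (· < ·))
    (hwf : WellFounded (α := T) (· < ·)) (hc : ∀ x : T, (Iic x).Countable) {A B : Set T}
    (hAB : A ⊆ B) (hBA : ∀ x ∈ B, ∀ u < x, u ∈ A) (hB : IsLindelof B)
    (hA : IsLindelof (A ×ˢ A)) : IsLindelof (B ×ˢ B) := by
  apply isLindelof_of_countable_subcover
  intro ι U hU hcov
  have h1 : ∀ p : T × T, p ∈ A ×ˢ A → ∃ (i : ι) (F G : Set T), F.Finite ∧ G.Finite ∧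
      (∀ a ∈ F, ¬ a ≤ p.1) ∧ (∀ a ∈ G, ¬ a ≤ p.2) ∧ WW p.1 F ×ˢ WW p.2 G ⊆ U i := by
    rintro ⟨s, t⟩ hp
    obtain ⟨i, hi⟩ := mem_iUnion.1 (hcov ⟨hAB hp.1, hAB hp.2⟩)
    obtain ⟨u, v, hu, hv, hsu, htv, huv⟩ := isOpen_prod_iff.1 (hU i) s t hi
    obtain ⟨F, hF1, hF2, hF3⟩ := exists_WW hT hu hsu
    obtain ⟨G, hG1, hG2, hG3⟩ := exists_WW hT hv htv
    exact ⟨i, F, G, hF1, hG1, hF2, hG2, (Set.prod_mono hF3 hG3).trans huv⟩
  choose! i0 F G hF hG hFs hGs hbox using h1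
  obtain ⟨C, hC, hsub⟩ := hA.elim_countable_subcover
    (fun p : (A ×ˢ A : Set (T × T)) => WW p.1.1 (F p.1) ×ˢ WW p.1.2 (G p.1))
    (fun p => (isOpen_WW hT _ (hF _ p.2)).prod (isOpen_WW hT _ (hG _ p.2)))
    (by
      intro p hp
      refine mem_iUnion.2 ⟨⟨p, hp⟩, ⟨le_rfl, fun a ha => hFs p hp a ha⟩,
        ⟨le_rfl, fun a ha => hGs p hp a ha⟩⟩)
  have hX := countable_XX hb hT hwf hc (F := ⋃ p ∈ C, F p.1)
    (hC.biUnion fun p _ => (hF _ p.2).countable)
  have hY := countable_XX hb hT hwf hc (F := ⋃ p ∈ C, G p.1)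
    (hC.biUnion fun p _ => (hG _ p.2).countable)
  have h2 : ∀ x : T, ∃ r : Set ι, r.Countable ∧ (x ∈ B → ({x} ×ˢ B ⊆ ⋃ i ∈ r, U i)) := by
    intro x
    by_cases hx : x ∈ B
    · have h3 : IsLindelof ({x} ×ˢ B) := by
        have e : ({x} ×ˢ B : Set (T × T)) = (fun y => (x, y)) '' B := by
          ext ⟨p, q⟩
          simp [Prod.ext_iff, eq_comm, and_comm]
        rw [e]
        exact hB.image (by fun_prop)
      obtain ⟨r, hr, h4⟩ := h3.elim_countable_subcover U hU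
        ((Set.prod_mono (by simpa using hx) le_rfl).trans hcov)
      exact ⟨r, hr, fun _ => h4⟩
    · exact ⟨∅, countable_empty, fun h => absurd h hx⟩
  have h2' : ∀ y : T, ∃ r : Set ι, r.Countable ∧ (y ∈ B → (B ×ˢ {y} ⊆ ⋃ i ∈ r, U i)) := by
    intro x
    by_cases hx : x ∈ B
    · have h3 : IsLindelof (B ×ˢ {x}) := by
        have e : (B ×ˢ {x} : Set (T × T)) = (fun y => (y, x)) '' B := by
          ext ⟨p, q⟩
          simp [Prod.ext_iff, eq_comm, and_comm]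
        rw [e]
        exact hB.image (by fun_prop)
      obtain ⟨r, hr, h4⟩ := h3.elim_countable_subcover U hU
        ((Set.prod_mono le_rfl (by simpa using hx)).trans hcov)
      exact ⟨r, hr, fun _ => h4⟩
    · exact ⟨∅, countable_empty, fun h => absurd h hx⟩
  choose rx hrx hrx' using h2
  choose ry hry hry' using h2'
  refine ⟨((fun p : (A ×ˢ A : Set (T × T)) => i0 p.1 p.2) '' C) ∪
    ((⋃ x ∈ XX (⋃ p ∈ C, F p.1), rx x) ∪ (⋃ y ∈ XX (⋃ p ∈ C, G p.1), ry y)),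
    (hC.image _).union ((hX.biUnion fun x _ => hrx x).union (hY.biUnion fun y _ => hry y)), ?_⟩
  rintro ⟨x, y⟩ ⟨hx, hy⟩
  rw [mem_iUnion₂]
  by_cases hxX : x ∈ XX (⋃ p ∈ C, F p.1)
  · obtain ⟨i, hi, hi'⟩ := mem_iUnion₂.1 (hrx' x hx (⟨rfl, hy⟩ : (x, y) ∈ {x} ×ˢ B))
    exact ⟨i, Or.inr (Or.inl (mem_iUnion₂.2 ⟨x, hxX, hi⟩)), hi'⟩
  by_cases hyY : y ∈ XX (⋃ p ∈ C, G p.1)
  · obtain ⟨i, hi, hi'⟩ := mem_iUnion₂.1 (hry' y hy (⟨hx, rfl⟩ : (x, y) ∈ B ×ˢ {y}))
    exact ⟨i, Or.inr (Or.inr (mem_iUnion₂.2 ⟨y, hyY, hi⟩)), hi'⟩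
  simp only [XX, mem_setOf_eq, not_forall, not_exists, not_and] at hxX hyY
  obtain ⟨u, hu, hu'⟩ := hxX
  obtain ⟨v, hv, hv'⟩ := hyY
  obtain ⟨p, hp, h3, h4⟩ := mem_iUnion₂.1 (hsub (⟨hBA x hx u hu, hBA y hy v hv⟩ : (u, v) ∈ A ×ˢ A))
  refine ⟨i0 p.1 p.2, Or.inl ⟨p, hp, rfl⟩, hbox p.1 p.2 ⟨⟨h3.1.trans hu.le, fun a ha hax => ?_⟩,
    ⟨h4.1.trans hv.le, fun a ha hay => ?_⟩⟩⟩
  · rcases comparable ht hax hu.le with h | h
    · exact h3.2 a ha h
    · exact hu' a (mem_iUnion₂.2 ⟨p, hp, ha⟩) h hax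
  · rcases comparable ht hay hv.le with h | h
    · exact h4.2 a ha h
    · exact hv' a (mem_iUnion₂.2 ⟨p, hp, ha⟩) h hay

/-- **Squares of Lindelöf trees of countable height.** -/
theorem square_lindelof (hb : Bounding) (hT : ‹TopologicalSpace T› = fineWedge T)
    (ht : ∀ x : T, IsWellOrder {y : T // y < x} (· < ·)) {W : Type} [LinearOrder W]
    [WellFoundedLT W] [Countable W] (h : T → W) (hh : ∀ x y : T, x < y → h x < h y) :
    LindelofSpace (T × T) := by
  have hwf : WellFounded (α := T) (· < ·) :=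
    WellFounded.mono (InvImage.wf h (wellFounded_lt (α := W))) fun x y hxy => hh x y hxy
  have hc : ∀ x : T, (Iic x).Countable := by
    intro x
    refine Set.MapsTo.countable_of_injOn (f := h) (t := univ) (fun _ _ => mem_univ _) ?_
      (Set.countable_univ)
    intro a ha b hb' hab
    rcases comparable ht ha hb' with h1 | h1
    · rcases h1.eq_or_lt with h2 | h2
      · exact h2
      · exact absurd hab (hh _ _ h2).ne
    · exact absurd hab (hh _ _ h1).ne'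
  have hKc : ∀ w : W, IsClosed {t : T | h t ≤ w} := by
    intro w
    rw [← isOpen_compl_iff]
    have e : {t : T | h t ≤ w}ᶜ = ⋃ t ∈ {t : T | w < h t}, Ici t := by
      ext z
      simp only [mem_compl_iff, mem_setOf_eq, not_le, mem_iUnion, mem_Ici, exists_prop]
      constructor
      · intro hz
        exact ⟨z, hz, le_rfl⟩
      · rintro ⟨t, h1, h2⟩
        rcases h2.eq_or_lt with rfl | h2
        · exact h1
        · exact h1.trans (hh _ _ h2)
    rw [e]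
    exact isOpen_biUnion fun t _ => fw_Ici hT t
  have hmain : ∀ w : W, IsLindelof ({t : T | h t ≤ w} ×ˢ {t : T | h t ≤ w}) := by
    intro w
    induction w using WellFoundedLT.induction with
    | ind w ih =>
      have hL : IsLindelof ({t : T | h t < w} ×ˢ {t : T | h t < w}) := by
        have e : ({t : T | h t < w} ×ˢ {t : T | h t < w} : Set (T × T)) =
            ⋃ v : {v : W // v < w}, {t : T | h t ≤ v} ×ˢ {t : T | h t ≤ v} := by
          ext ⟨s, t⟩
          simp only [mem_prod, mem_setOf_eq, mem_iUnion, Subtype.exists, exists_prop]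
          constructor
          · rintro ⟨h1, h2⟩
            exact ⟨max (h s) (h t), max_lt h1 h2, le_max_left _ _, le_max_right _ _⟩
          · rintro ⟨v, h1, h2, h3⟩
            exact ⟨h2.trans_lt h1, h3.trans_lt h1⟩
        rw [e]
        exact isLindelof_iUnion fun v => ih v.1 v.2
      exact step hb hT ht hwf hc (fun t ht' => le_of_lt ht')
        (fun x hx u hu => lt_of_lt_of_le (hh _ _ hu) hx) (hKc w).isLindelof hL
  constructor
  have e : (univ : Set (T × T)) = ⋃ w : W, {t : T | h t ≤ w} ×ˢ {t : T | h t ≤ w} := by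
    ext ⟨s, t⟩
    simp only [mem_univ, mem_iUnion, mem_prod, mem_setOf_eq, true_iff]
    exact ⟨max (h s) (h t), le_max_left _ _, le_max_right _ _⟩
  rw [e]
  exact isLindelof_iUnion hmain

end

end Pool.Agent.Q303.FW
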