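import Pool.Agent.Q303.FW.Square
import Pool.Agent.Q303.FW.Pos

set_option autoImplicit false

/-!
# Squares of Lindelöf trees of countable height

If `𝔡 = ℵ₁` (so under `CH`) there is a tree, with all nodes at levels `≤ ω`, which is Lindelöf in
the fine wedge topology and whose square is not Lindelöf.  If `𝔟 > ℵ₁`, then every tree of countable
height which is Lindelöf in the fine wedge topology has a Lindelöf square.
-/

open Set

namespace Pool.Agent.Q303.FW.CountableHeight

/-- A tree: the predecessors of every node are well ordered. -/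
def IsTree (T : Type) [PartialOrder T] : Prop :=
  ∀ x : T, IsWellOrder {y : T // y < x} (fun a b => a < b)

/-- The height of a node `x` of a tree: the order type of the set of the nodes below `x`. -/
noncomputable def height {T : Type} [PartialOrder T] (hT : IsTree T) (x : T) : Ordinal.{0} :=
  @Ordinal.type {y : T // y < x} (fun a b => a < b) (hT x)

/-- The fine wedge topology: the sets `{s | t ≤ s}` and their complements are a subbase. -/
def fineWedge (T : Type) [PartialOrder T] : TopologicalSpace T :=
  TopologicalSpace.generateFrom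
    ({U | ∃ t : T, U = {s | t ≤ s}} ∪ {U | ∃ t : T, U = {s | t ≤ s}ᶜ})

/-- The tree is Lindelöf in the fine wedge topology. -/
def IsLindelofTree (T : Type) [PartialOrder T] : Prop := @LindelofSpace T (fineWedge T)

/-- The square of the tree is Lindelöf in the product of the fine wedge topologies. -/
def IsLindelofSquare (T : Type) [PartialOrder T] : Prop :=
  @LindelofSpace (T × T) (@instTopologicalSpaceProd T T (fineWedge T) (fineWedge T))

/-- `𝔡 = ℵ₁`: some family of `ℵ₁` functions is dominating.  (No countable family is.) -/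
def DominatingNumberEqAlephOne : Prop :=
  ∃ F : Set (ℕ → ℕ), Cardinal.mk F = Cardinal.aleph 1 ∧
    ∀ g : ℕ → ℕ, ∃ f ∈ F, ∃ m, ∀ n, m ≤ n → g n ≤ f n

/-- `𝔟 > ℵ₁`: every family of at most `ℵ₁` functions is bounded. -/
def BoundingNumberGtAlephOne : Prop :=
  ∀ F : Set (ℕ → ℕ), Cardinal.mk F ≤ Cardinal.aleph 1 →
    ∃ g : ℕ → ℕ, ∀ f ∈ F, ∃ m, ∀ n, m ≤ n → f n ≤ g n

open Pool.Agent.Q303

lemma fineWedge_eq (T : Type) [PartialOrder T] : fineWedge T = FW.fineWedge T := rfl

lemma height_lt {T : Type} [PartialOrder T] (hT : IsTree T) {x y : T} (h : x < y) :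
    height hT x < height hT y := by
  have f : @PrincipalSeg {z : T // z < x} {z : T // z < y} (fun a b => a < b)
      (fun a b => a < b) :=
    { toFun := fun z => ⟨z.1, z.2.trans h⟩
      inj' := fun a b hab => Subtype.ext (congrArg (fun w : {z : T // z < y} => w.1) hab)
      map_rel_iff' := Iff.rfl
      top := ⟨x, h⟩
      mem_range_iff_rel' := by
        intro b
        constructor
        · rintro ⟨a, rfl⟩
          exact a.2
        · intro hb
          exact ⟨⟨b.1, hb⟩, rfl⟩ }
  haveI := hT x
  haveI := hT y
  exact f.ordinal_type_lt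

/-- **Squares of Lindelöf trees of countable height.** -/
theorem countable_height :
    -- (0) the continuum hypothesis implies `𝔡 = ℵ₁`
    ((Cardinal.aleph 1 : Cardinal.{0}) = Cardinal.continuum → DominatingNumberEqAlephOne) ∧
    -- (1) if `𝔡 = ℵ₁`, a Lindelöf tree with nodes at levels `≤ ω` whose square is not Lindelöf
    (DominatingNumberEqAlephOne → ∃ (T : Type) (_ : PartialOrder T) (hT : IsTree T),
      (∀ x : T, height hT x ≤ Ordinal.omega0) ∧ IsLindelofTree T ∧ ¬ IsLindelofSquare T) ∧
    -- (2) if `𝔟 > ℵ₁`, all Lindelöf trees of countable height have Lindelöf squares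
    (BoundingNumberGtAlephOne → ∀ (T : Type) [PartialOrder T] (hT : IsTree T),
      (∃ α : Ordinal.{0}, α.card ≤ Cardinal.aleph0 ∧ ∀ x : T, height hT x < α) →
      IsLindelofTree T → IsLindelofSquare T) := by
  refine ⟨fun h => ?_, fun h => ?_, fun hb T _ hT hα hL => ?_⟩
  · obtain ⟨F, hF, hdom⟩ := FW.dominating_of_ch h
    refine ⟨F, hF, fun g => ?_⟩
    obtain ⟨f, hf, hgf⟩ := hdom g
    exact ⟨f, hf, Filter.eventually_atTop.1 hgf⟩
  · have hD : FW.Dominating := by
      obtain ⟨F, hF, hdom⟩ := h
      refine ⟨F, hF, fun g => ?_⟩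
      obtain ⟨f, hf, hgf⟩ := hdom g
      exact ⟨f, hf, Filter.eventually_atTop.2 hgf⟩
    obtain ⟨Ω, hΩ, n, hn, hbad⟩ := FW.exists_family hD
    refine ⟨FW.Node (FW.AA n), inferInstance, FW.Node.isTree, fun x => ?_, ?_, ?_⟩
    · have hfin : ∀ y : {y : FW.Node (FW.AA n) // y < x}, FW.Node.len y.1 < FW.Node.len x := by
        intro y
        refine lt_of_le_of_ne (FW.Node.len_mono y.2.le) fun e => ?_
        exact absurd (FW.Node.le_of_len le_rfl y.2.le (le_of_eq e.symm)) (not_le_of_gt y.2)
      have hlt : ∀ y z : {y : FW.Node (FW.AA n) // y < x}, y < z →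
          FW.Node.len y.1 < FW.Node.len z.1 := by
        intro y z hyz
        have hyz' : y.1 < z.1 := hyz
        refine lt_of_le_of_ne (FW.Node.len_mono hyz'.le) fun e => ?_
        exact absurd (FW.Node.le_of_len le_rfl hyz'.le (le_of_eq e.symm)) (not_le_of_gt hyz')
      have hne : ∀ y : {y : FW.Node (FW.AA n) // y < x}, FW.Node.len y.1 ≠ ⊤ :=
        fun y => ne_top_of_lt (hfin y)
      haveI := FW.Node.isTree x
      have f : (fun a b : {y : FW.Node (FW.AA n) // y < x} => a < b) ↪r
          (fun a b : ℕ => a < b) := by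
        refine RelEmbedding.ofMonotone (fun y => (FW.Node.len y.1).toNat) ?_
        intro a b hab
        have h1 := hlt a b hab
        rw [← ENat.coe_toNat (hne a), ← ENat.coe_toNat (hne b), Nat.cast_lt] at h1
        exact h1
      have h2 := f.ordinal_type_le
      rw [show Ordinal.type (fun a b : ℕ => a < b) = Ordinal.omega0 from
        Ordinal.type_nat_lt] at h2
      exact h2
    · exact FW.Node.lindelof (FW.AA_countable hn hbad)
    · exact FW.not_lindelof hn hbad
  · have hB : FW.Bounding := by
      intro F hF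
      obtain ⟨g, hg⟩ := hb F hF
      exact ⟨g, fun f hf => Filter.eventually_atTop.2 (hg f hf)⟩
    obtain ⟨α, hαc, hα⟩ := hα
    haveI : Countable α.ToType := by
      rw [← Cardinal.mk_le_aleph0_iff, Cardinal.mk_toType]
      exact hαc
    letI : TopologicalSpace T := fineWedge T
    haveI : LindelofSpace T := hL
    exact FW.square_lindelof hB rfl hT (W := α.ToType)
      (fun x => Ordinal.ToType.mk ⟨height hT x, hα x⟩)
      (fun x y hxy => Ordinal.ToType.mk.lt_iff_lt.2 (height_lt hT hxy))

end Pool.Agent.Q303.FW.CountableHeight
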