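import Pool.Agent.Q303.FW.Tree

/-!
# A Lindelöf tree whose square is not Lindelöf
-/

set_option autoImplicit false

open Set Topology Filter

namespace Pool.Agent.Q303.FW

open Classical in
/-- `n (2 k) ↦ n (2 k + 1)`, and zero elsewhere -/
noncomputable def xf (n : ℕ → ℕ) (i : ℕ) : ℕ :=
  if h : ∃ k, n (2 * k) = i then n (2 * h.choose + 1) else 0

open Classical in
/-- `n (2 k + 1) ↦ n (2 k + 2)`, and zero elsewhere -/
noncomputable def yf (n : ℕ → ℕ) (j : ℕ) : ℕ :=
  if h : ∃ k, n (2 * k + 1) = j then n (2 * h.choose + 2) else 0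

lemma xf_apply {n : ℕ → ℕ} (hn : StrictMono n) (k : ℕ) : xf n (n (2 * k)) = n (2 * k + 1) := by
  have h : ∃ k', n (2 * k') = n (2 * k) := ⟨k, rfl⟩
  have h' := hn.injective h.choose_spec
  rw [xf, dif_pos h, h']

lemma yf_apply {n : ℕ → ℕ} (hn : StrictMono n) (k : ℕ) :
    yf n (n (2 * k + 1)) = n (2 * k + 2) := by
  have h : ∃ k', n (2 * k' + 1) = n (2 * k + 1) := ⟨k, rfl⟩
  have h' := hn.injective h.choose_spec
  have h'' : 2 * h.choose = 2 * k := by omega
  rw [yf, dif_pos h, h'']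

lemma cross {n : ℕ → ℕ} (hn : StrictMono n) (i j : ℕ) : xf n i ≤ j ∨ yf n j ≤ i := by
  by_contra hcon
  push Not at hcon
  obtain ⟨h1, h2⟩ := hcon
  by_cases hx : ∃ k, n (2 * k) = i
  · by_cases hy : ∃ k, n (2 * k + 1) = j
    · obtain ⟨k, rfl⟩ := hx
      obtain ⟨l, rfl⟩ := hy
      rw [xf_apply hn, hn.lt_iff_lt] at h1
      rw [yf_apply hn, hn.lt_iff_lt] at h2
      omega
    · rw [yf, dif_neg hy] at h2
      omega
  · rw [xf, dif_neg hx] at h1
    omega

/-- The set of the functions at level `ω`. -/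
def AA {Ω : Type} (n : Ω → ℕ → ℕ) : Set (ℕ → ℕ) :=
  range (fun α => xf (n α)) ∪ range (fun α => yf (n α))

/-- the indices for which the sequence is not fast with respect to `g` -/
def bad {Ω : Type} (n : Ω → ℕ → ℕ) (g : ℕ → ℕ) : Set Ω :=
  {α | ¬ ∃ K, ∀ k, K ≤ k → g (n α k) < n α (k + 1)}

section

variable {Ω : Type} {n : Ω → ℕ → ℕ}

lemma bad_x (hn : ∀ α, StrictMono (n α)) {g : ℕ → ℕ} {α : Ω} (h : ∀ m, xf (n α) m ≤ g m) :
    α ∈ bad n g := by
  rintro ⟨K, hK⟩
  have h1 := hK (2 * K) (by omega)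
  have h2 := h (n α (2 * K))
  rw [xf_apply (hn α)] at h2
  omega

lemma bad_y (hn : ∀ α, StrictMono (n α)) {g : ℕ → ℕ} {α : Ω} (h : ∀ m, yf (n α) m ≤ g m) :
    α ∈ bad n g := by
  rintro ⟨K, hK⟩
  have h1 := hK (2 * K + 1) (by omega)
  have h2 := h (n α (2 * K + 1))
  rw [yf_apply (hn α)] at h2
  have e : 2 * K + 1 + 1 = 2 * K + 2 := by omega
  rw [e] at h1
  omega

lemma AA_countable (hn : ∀ α, StrictMono (n α)) (hb : ∀ g, (bad n g).Countable) (g : ℕ → ℕ) :
    {x ∈ AA n | ∀ m, x m ≤ g m}.Countable := by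
  refine (((hb g).image (fun α => xf (n α))).union
    ((hb g).image (fun α => yf (n α)))).mono ?_
  rintro x ⟨hx, hg⟩
  rcases hx with ⟨α, rfl⟩ | ⟨α, rfl⟩
  · exact Or.inl ⟨α, bad_x hn hg, rfl⟩
  · exact Or.inr ⟨α, bad_y hn hg, rfl⟩

/-- the points of the closed discrete set -/
noncomputable def pt (n : Ω → ℕ → ℕ) (α : Ω) : Node (AA n) × Node (AA n) :=
  (Node.br ⟨xf (n α), Or.inl ⟨α, rfl⟩⟩, Node.br ⟨yf (n α), Or.inr ⟨α, rfl⟩⟩)

lemma isClosed_pt (hn : ∀ α, StrictMono (n α)) : IsClosed (range (pt n)) := by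
  rw [← isOpen_compl_iff, isOpen_prod_iff]
  intro a b hab
  cases a with
  | fin l =>
    cases b with
    | fin m =>
      refine ⟨Node.W l (m.length + 1), Node.W m (l.length + 1), Node.isOpen_W _ _,
        Node.isOpen_W _ _, Node.fin_mem_W _ _, Node.fin_mem_W _ _, ?_⟩
      rintro _ ⟨h1, h2⟩ ⟨α, rfl⟩
      have h3 := h1.2 _ (Node.seq_br _ _)
      have h4 := h2.2 _ (Node.seq_br _ _)
      simp only at h3 h4
      rcases cross (hn α) l.length m.length with h | h <;> omega
    | br y =>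
      by_cases hy : ∃ j, l.length < (y : ℕ → ℕ) j
      · obtain ⟨j, hj⟩ := hy
        refine ⟨Node.W l (j + 1), {Node.br y}, Node.isOpen_W _ _, Node.isOpen_br _,
          Node.fin_mem_W _ _, rfl, ?_⟩
        rintro _ ⟨h1, h2⟩ ⟨α, rfl⟩
        have h3 := h1.2 _ (Node.seq_br _ _)
        have h4 : (Node.br ⟨yf (n α), Or.inr ⟨α, rfl⟩⟩ : Node (AA n)) = Node.br y := h2
        rw [Node.br.injEq] at h4
        subst h4
        simp only at h3 hj
        rcases cross (hn α) l.length j with h | h <;> omega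
      · refine ⟨univ, {Node.br y}, isOpen_univ, Node.isOpen_br _, mem_univ _, rfl, ?_⟩
        rintro _ ⟨-, h2⟩ ⟨α, rfl⟩
        have h4 : (Node.br ⟨yf (n α), Or.inr ⟨α, rfl⟩⟩ : Node (AA n)) = Node.br y := h2
        rw [Node.br.injEq] at h4
        subst h4
        refine hy ⟨n α (2 * l.length + 1), ?_⟩
        show l.length < yf (n α) (n α (2 * l.length + 1))
        rw [yf_apply (hn α)]
        have := (hn α).le_apply (x := 2 * l.length + 2)
        omega
  | br x =>
    cases b with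
    | fin m =>
      by_cases hx : ∃ i, m.length < (x : ℕ → ℕ) i
      · obtain ⟨i, hi⟩ := hx
        refine ⟨{Node.br x}, Node.W m (i + 1), Node.isOpen_br _, Node.isOpen_W _ _,
          rfl, Node.fin_mem_W _ _, ?_⟩
        rintro _ ⟨h1, h2⟩ ⟨α, rfl⟩
        have h3 := h2.2 _ (Node.seq_br _ _)
        have h4 : (Node.br ⟨xf (n α), Or.inl ⟨α, rfl⟩⟩ : Node (AA n)) = Node.br x := h1
        rw [Node.br.injEq] at h4
        subst h4
        simp only at h3 hi
        rcases cross (hn α) i m.length with h | h <;> omega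
      · refine ⟨{Node.br x}, univ, Node.isOpen_br _, isOpen_univ, rfl, mem_univ _, ?_⟩
        rintro _ ⟨h1, -⟩ ⟨α, rfl⟩
        have h4 : (Node.br ⟨xf (n α), Or.inl ⟨α, rfl⟩⟩ : Node (AA n)) = Node.br x := h1
        rw [Node.br.injEq] at h4
        subst h4
        refine hx ⟨n α (2 * m.length), ?_⟩
        show m.length < xf (n α) (n α (2 * m.length))
        rw [xf_apply (hn α)]
        have := (hn α).le_apply (x := 2 * m.length + 1)
        omega
    | br y =>
      refine ⟨{Node.br x}, {Node.br y}, Node.isOpen_br _, Node.isOpen_br _, rfl, rfl, ?_⟩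
      rintro ⟨u, v⟩ ⟨h1, h2⟩
      obtain rfl : u = Node.br x := h1
      obtain rfl : v = Node.br y := h2
      exact hab

lemma not_countable [Uncountable Ω] (hn : ∀ α, StrictMono (n α))
    (hb : ∀ g, (bad n g).Countable) : ¬ (range (pt n)).Countable := by
  intro hD
  have h1 : (univ : Set Ω) ⊆ ⋃ d ∈ range (pt n), {α | pt n α = d} := by
    intro α _
    rw [mem_iUnion₂]
    exact ⟨pt n α, ⟨α, rfl⟩, rfl⟩
  have h2 : (⋃ d ∈ range (pt n), {α | pt n α = d}).Countable := by
    refine hD.biUnion ?_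
    rintro _ ⟨β, rfl⟩
    refine (hb (xf (n β))).mono ?_
    intro α hα
    have h3 : (pt n α).1 = (pt n β).1 := congrArg Prod.fst hα
    have h4 : xf (n α) = xf (n β) := by
      have := h3
      simp only [pt, Node.br.injEq] at this
      exact congrArg Subtype.val this
    apply bad_x hn
    intro m
    rw [h4]
  have h3 := h2.mono h1
  exact not_countable_univ h3

lemma not_lindelof [Uncountable Ω] (hn : ∀ α, StrictMono (n α))
    (hb : ∀ g, (bad n g).Countable) : ¬ LindelofSpace (Node (AA n) × Node (AA n)) := by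
  intro h
  have h1 : IsLindelof (range (pt n)) := (isClosed_pt hn).isLindelof
  obtain ⟨r, hr, hsub⟩ := h1.elim_countable_subcover (fun α : Ω => {pt n α})
    (fun α => by
      have e : ({pt n α} : Set (Node (AA n) × Node (AA n))) =
          {(pt n α).1} ×ˢ {(pt n α).2} := by
        rw [Set.singleton_prod_singleton]
      rw [e]
      exact (Node.isOpen_br _).prod (Node.isOpen_br _))
    (by
      rintro _ ⟨α, rfl⟩
      exact mem_iUnion.2 ⟨α, rfl⟩)
  refine not_countable hn hb (((hr.image (pt n))).mono ?_)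
  intro d hd
  obtain ⟨α, hα, rfl⟩ := mem_iUnion₂.1 (hsub hd)
  exact ⟨α, hα, rfl⟩

end

/-! ### the family of sequences -/

/-- There is a dominating family of `ℵ₁` functions. -/
def Dominating : Prop := ∃ F : Set (ℕ → ℕ), Cardinal.mk F = Cardinal.aleph 1 ∧
  ∀ g : ℕ → ℕ, ∃ f ∈ F, ∀ᶠ n in atTop, g n ≤ f n

lemma exists_upper (S : Set (ℕ → ℕ)) (hS : S.Countable) :
    ∃ h : ℕ → ℕ, ∀ f ∈ S, ∃ N, ∀ n, N ≤ n → f n ≤ h n := by
  rcases S.eq_empty_or_nonempty with rfl | hne
  · exact ⟨0, fun f hf => absurd hf (by simp)⟩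
  · obtain ⟨e, rfl⟩ := hS.exists_eq_range hne
    refine ⟨fun n => (Finset.range (n + 1)).sup fun i => e i n, ?_⟩
    rintro _ ⟨i, rfl⟩
    refine ⟨i, fun n hn => ?_⟩
    exact Finset.le_sup (f := fun i => e i n) (Finset.mem_range.2 (by omega))

theorem exists_family (h : Dominating) : ∃ (Ω : Type) (_ : Uncountable Ω) (n : Ω → ℕ → ℕ),
    (∀ α, StrictMono (n α)) ∧ ∀ g, (bad n g).Countable := by
  obtain ⟨F, hF, hdom⟩ := h
  obtain ⟨r, wo, hr⟩ := Cardinal.exists_ord_eq F
  have hseg : ∀ α : F, {β : F | r β α}.Countable := by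
    intro α
    have h1 := Cardinal.card_typein_lt (r := r) α hr
    rw [hF] at h1
    have h2 : Cardinal.mk {β : F | r β α} < Cardinal.aleph 1 := h1
    exact (Cardinal.countable_iff_lt_aleph_one _).2 h2
  have hex : ∀ α : F, ∃ h : ℕ → ℕ, ∀ β : F, (r β α ∨ β = α) →
      ∃ N, ∀ n, N ≤ n → (β : ℕ → ℕ) n ≤ h n := by
    intro α
    have hc : ({β : F | r β α ∨ β = α}).Countable := by
      refine ((hseg α).union (countable_singleton α)).mono ?_
      rintro β (hβ | hβ)
      · exact Or.inl hβ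
      · exact Or.inr hβ
    obtain ⟨h, hh⟩ := exists_upper ((fun β : F => (β : ℕ → ℕ)) '' {β : F | r β α ∨ β = α})
      (hc.image _)
    exact ⟨h, fun β hβ => hh _ ⟨β, hβ, rfl⟩⟩
  choose h hh using hex
  let n : F → ℕ → ℕ := fun α k => Nat.rec 0 (fun _ m => m + h α m + 1) k
  have hns : ∀ α k, n α (k + 1) = n α k + h α (n α k) + 1 := fun α k => rfl
  have hmono : ∀ α, StrictMono (n α) := fun α =>
    strictMono_nat_of_lt_succ fun k => by rw [hns]; omega
  refine ⟨F, ?_, n, hmono, ?_⟩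
  · rw [← Cardinal.aleph0_lt_mk_iff, hF]
    exact Cardinal.aleph0_lt_aleph_one
  · intro g
    obtain ⟨f, hf, hgf⟩ := hdom g
    obtain ⟨N, hN⟩ := eventually_atTop.1 hgf
    refine (hseg ⟨f, hf⟩).mono ?_
    intro α hα
    by_contra hcon
    have hα' : ¬ r α ⟨f, hf⟩ := hcon
    have h1 : r ⟨f, hf⟩ α ∨ (⟨f, hf⟩ : F) = α := by
      rcases trichotomous_of r (⟨f, hf⟩ : F) α with h | h | h
      · exact Or.inl h
      · exact Or.inr h
      · exact absurd h hα'
    obtain ⟨N', hN'⟩ := hh α ⟨f, hf⟩ h1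
    apply hα
    refine ⟨max N N', fun k hk => ?_⟩
    have h2 : k ≤ n α k := (hmono α).le_apply
    have h3 := hN (n α k) ((le_max_left _ _).trans (hk.trans h2))
    have h4 := hN' (n α k) ((le_max_right _ _).trans (hk.trans h2))
    rw [hns]
    simp only at h4
    omega

theorem dominating_of_ch (h : (Cardinal.aleph 1 : Cardinal.{0}) = Cardinal.continuum) : Dominating := by
  refine ⟨univ, ?_, fun g => ⟨g, mem_univ g, Filter.Eventually.of_forall fun n => le_rfl⟩⟩
  rw [Cardinal.mk_univ, h]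
  simp

end Pool.Agent.Q303.FW
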