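import Mathlib

/-!
# Trees of height `ω + 1` in the fine wedge topology
-/

set_option autoImplicit false

open Set Topology

namespace Pool.Agent.Q303.FW

/-- The fine wedge topology: the sets `{s | t ≤ s}` and their complements are a subbase. -/
def fineWedge (T : Type) [PartialOrder T] : TopologicalSpace T :=
  TopologicalSpace.generateFrom ({s | ∃ t : T, s = Ici t} ∪ {s | ∃ t : T, s = (Ici t)ᶜ})

/-- The nodes: the finite sequences, and the elements of `A`, at level `ω`. -/
inductive Node (A : Set (ℕ → ℕ)) : Type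
  | fin (l : List ℕ) : Node A
  | br (x : A) : Node A

namespace Node

variable {A : Set (ℕ → ℕ)}

/-- A node as a partial function. -/
def seq : Node A → ℕ → Option ℕ
  | fin l, i => l[i]?
  | br x, i => some ((x : ℕ → ℕ) i)

/-- The length of a node. -/
noncomputable def len : Node A → ℕ∞
  | fin l => l.length
  | br _ => ⊤

@[simp] lemma seq_fin (l : List ℕ) (i : ℕ) : seq (fin l : Node A) i = l[i]? := rfl
@[simp] lemma seq_br (x : A) (i : ℕ) : seq (br x) i = some ((x : ℕ → ℕ) i) := rfl
@[simp] lemma len_fin (l : List ℕ) : len (fin l : Node A) = l.length := rfl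
@[simp] lemma len_br (x : A) : len (br x) = ⊤ := rfl

lemma lt_len (s : Node A) (i : ℕ) : (i : ℕ∞) < len s ↔ ∃ k, seq s i = some k := by
  cases s with
  | fin l =>
    simp only [len_fin, Nat.cast_lt, seq_fin]
    constructor
    · intro h
      exact ⟨l[i], List.getElem?_eq_getElem h⟩
    · rintro ⟨k, hk⟩
      by_contra h
      rw [List.getElem?_eq_none (not_lt.1 h)] at hk
      exact absurd hk (by simp)
  | br x => simp

lemma seq_inj {s t : Node A} (h : ∀ i, seq s i = seq t i) : s = t := by
  have hl : len s = len t := by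
    refine le_antisymm ?_ ?_
    · refine le_of_forall_lt fun c hc => ?_
      obtain ⟨i, rfl⟩ : ∃ i : ℕ, (i : ℕ∞) = c := ⟨c.toNat, ENat.coe_toNat (ne_top_of_lt hc)⟩
      rw [lt_len] at hc ⊢
      obtain ⟨k, hk⟩ := hc
      exact ⟨k, (h i) ▸ hk⟩
    · refine le_of_forall_lt fun c hc => ?_
      obtain ⟨i, rfl⟩ : ∃ i : ℕ, (i : ℕ∞) = c := ⟨c.toNat, ENat.coe_toNat (ne_top_of_lt hc)⟩
      rw [lt_len] at hc ⊢
      obtain ⟨k, hk⟩ := hc
      exact ⟨k, (h i).symm ▸ hk⟩
  cases s with
  | fin l =>
    cases t with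
    | fin m => exact congrArg fin (List.ext_getElem? h)
    | br y => exact absurd hl (by simp)
  | br x =>
    cases t with
    | fin m => exact absurd hl (by simp)
    | br y =>
      congr 1
      apply Subtype.ext
      funext i
      have := h i
      simpa using this

instance : PartialOrder (Node A) where
  le s t := ∀ i k, seq s i = some k → seq t i = some k
  le_refl s := fun i k h => h
  le_trans s t u h1 h2 := fun i k h => h2 i k (h1 i k h)
  le_antisymm s t h1 h2 := by
    apply seq_inj
    intro i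
    cases hs : seq s i with
    | none =>
      cases ht : seq t i with
      | none => rfl
      | some k => rw [h2 i k ht] at hs; exact absurd hs (by simp)
    | some k => rw [h1 i k hs]

lemma le_def {s t : Node A} : s ≤ t ↔ ∀ i k, seq s i = some k → seq t i = some k := Iff.rfl

lemma len_mono {s t : Node A} (h : s ≤ t) : len s ≤ len t := by
  refine le_of_forall_lt fun c hc => ?_
  obtain ⟨i, rfl⟩ : ∃ i : ℕ, (i : ℕ∞) = c := ⟨c.toNat, ENat.coe_toNat (ne_top_of_lt hc)⟩
  rw [lt_len] at hc ⊢
  obtain ⟨k, hk⟩ := hc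
  exact ⟨k, h i k hk⟩

lemma le_of_len {s t u : Node A} (h1 : s ≤ u) (h2 : t ≤ u) (h : len s ≤ len t) : s ≤ t := by
  intro i k hk
  have hi : (i : ℕ∞) < len t := lt_of_lt_of_le ((lt_len s i).2 ⟨k, hk⟩) h
  obtain ⟨k', hk'⟩ := (lt_len t i).1 hi
  have e1 := h1 i k hk
  have e2 := h2 i k' hk'
  rw [e1] at e2
  rw [hk', ← e2]

lemma isTree : ∀ x : Node A, IsWellOrder {y : Node A // y < x} (· < ·) := by
  intro x
  have f : (fun a b : {y : Node A // y < x} => a < b) ↪r (fun a b : ℕ∞ => a < b) :=
    { toFun := fun y => len y.1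
      inj' := by
        intro s t h
        apply Subtype.ext
        exact le_antisymm (le_of_len s.2.le t.2.le (le_of_eq h))
          (le_of_len t.2.le s.2.le (le_of_eq h.symm))
      map_rel_iff' := by
        intro s t
        constructor
        · intro h
          have h' : len s.1 < len t.1 := h
          show s.1 < t.1
          refine lt_of_le_of_ne (le_of_len s.2.le t.2.le h'.le) ?_
          intro e
          rw [e] at h'
          exact lt_irrefl _ h'
        · intro h
          have h' : s.1 < t.1 := h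
          show len s.1 < len t.1
          refine lt_of_le_of_ne (len_mono h'.le) ?_
          intro e
          exact absurd (le_of_len t.2.le s.2.le (le_of_eq e.symm)) (not_le_of_gt h') }
  exact f.isWellOrder

/-! ### the topology -/

instance : TopologicalSpace (Node A) := fineWedge (Node A)

lemma isOpen_Ici (t : Node A) : IsOpen (Ici t) :=
  TopologicalSpace.isOpen_generateFrom_of_mem (Or.inl ⟨t, rfl⟩)

lemma isOpen_compl (t : Node A) : IsOpen (Ici t)ᶜ :=
  TopologicalSpace.isOpen_generateFrom_of_mem (Or.inr ⟨t, rfl⟩)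

lemma Ici_br (x : A) : Ici (br x) = {(br x : Node A)} := by
  ext s
  simp only [mem_Ici, mem_singleton_iff]
  constructor
  · intro h
    apply seq_inj
    intro i
    rw [h i _ (seq_br x i), seq_br]
  · rintro rfl
    exact le_rfl

lemma isOpen_br (x : A) : IsOpen {(br x : Node A)} := by
  rw [← Ici_br]
  exact isOpen_Ici _

/-- the basic neighbourhoods of a finite sequence -/
def W (l : List ℕ) (b : ℕ) : Set (Node A) :=
  {s | fin l ≤ s ∧ ∀ k, seq s l.length = some k → b ≤ k}

lemma fin_snoc_le {l : List ℕ} {k : ℕ} {s : Node A} (h : fin l ≤ s) :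
    fin (l ++ [k]) ≤ s ↔ seq s l.length = some k := by
  constructor
  · intro h'
    exact h' _ _ (by simp)
  · intro h' i k' hk'
    rcases lt_trichotomy i l.length with hi | hi | hi
    · apply h
      rw [seq_fin] at hk' ⊢
      rwa [List.getElem?_append_left hi] at hk'
    · subst hi
      rw [seq_fin, List.getElem?_append_right le_rfl] at hk'
      simp at hk'
      rw [h', hk']
    · rw [seq_fin, List.getElem?_eq_none (by simp; omega)] at hk'
      exact absurd hk' (by simp)

lemma isOpen_W (l : List ℕ) (b : ℕ) : IsOpen (W l b : Set (Node A)) := by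
  have e : (W l b : Set (Node A)) = Ici (fin l) ∩ ⋂ k ∈ Finset.range b, (Ici (fin (l ++ [k])))ᶜ := by
    ext s
    simp only [W, mem_setOf_eq, mem_inter_iff, mem_Ici, mem_iInter, Finset.mem_range, mem_compl_iff]
    constructor
    · rintro ⟨h1, h2⟩
      refine ⟨h1, fun k hk h => ?_⟩
      have := h2 k ((fin_snoc_le h1).1 h)
      omega
    · rintro ⟨h1, h2⟩
      refine ⟨h1, fun k hk => ?_⟩
      by_contra hb
      exact h2 k (not_le.1 hb) ((fin_snoc_le h1).2 hk)
  rw [e]
  exact (isOpen_Ici _).inter (isOpen_biInter_finset fun k _ => isOpen_compl _)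

lemma fin_mem_W (l : List ℕ) (b : ℕ) : (fin l : Node A) ∈ W l b := by
  refine ⟨le_rfl, fun k hk => ?_⟩
  rw [seq_fin, List.getElem?_eq_none le_rfl] at hk
  exact absurd hk (by simp)

lemma exists_W {l : List ℕ} {U : Set (Node A)} (hU : IsOpen U) (hl : fin l ∈ U) :
    ∃ b, W l b ⊆ U := by
  have hU' : TopologicalSpace.GenerateOpen
      ({s | ∃ t : Node A, s = Ici t} ∪ {s | ∃ t : Node A, s = (Ici t)ᶜ}) U := hU
  induction hU' with
  | basic s hs =>
    rcases hs with ⟨t, rfl⟩ | ⟨t, rfl⟩
    · exact ⟨0, fun s hs => le_trans hl hs.1⟩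
    · cases ht : seq t l.length with
      | none =>
        refine ⟨0, fun s hs h => ?_⟩
        have hlen : len t ≤ len (fin l : Node A) := by
          by_contra hc
          push Not at hc
          rw [len_fin, lt_len] at hc
          obtain ⟨k, hk⟩ := hc
          rw [ht] at hk
          exact absurd hk (by simp)
        exact hl (le_of_len h hs.1 hlen)
      | some k =>
        refine ⟨k + 1, fun s hs h => ?_⟩
        have := hs.2 k (h _ _ ht)
        omega
  | univ => exact ⟨0, fun s _ => mem_univ s⟩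
  | inter s t hs ht ihs iht =>
    obtain ⟨b, hb⟩ := ihs hs hl.1
    obtain ⟨c, hc⟩ := iht ht hl.2
    refine ⟨max b c, fun u hu => ⟨hb ⟨hu.1, fun k hk => ?_⟩, hc ⟨hu.1, fun k hk => ?_⟩⟩⟩
    · exact (le_max_left _ _).trans (hu.2 k hk)
    · exact (le_max_right _ _).trans (hu.2 k hk)
  | sUnion S hS ih =>
    obtain ⟨s, hs, hls⟩ := hl
    obtain ⟨b, hb⟩ := ih s hs (hS s hs) hls
    exact ⟨b, fun u hu => ⟨s, hs, hb hu⟩⟩

/-- the restriction of `x` to `n` -/
def res (x : ℕ → ℕ) (n : ℕ) : List ℕ := (List.range n).map x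

@[simp] lemma res_length (x : ℕ → ℕ) (n : ℕ) : (res x n).length = n := by simp [res]

lemma res_succ (x : ℕ → ℕ) (n : ℕ) : res x (n + 1) = res x n ++ [x n] := by
  simp [res, List.range_succ]

lemma res_le (x : A) (n : ℕ) : fin (res x n) ≤ (br x : Node A) := by
  intro i k hk
  rw [seq_fin] at hk
  have hi : i < (res (x : ℕ → ℕ) n).length := by
    by_contra h
    rw [List.getElem?_eq_none (not_lt.1 h)] at hk
    exact absurd hk (by simp)
  rw [List.getElem?_eq_getElem hi] at hk
  rw [seq_br, ← hk]
  simp [res]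

/-- If for every `g` only countably many elements of `A` are bounded by `g`, the tree is
Lindelöf. -/
theorem lindelof (hA : ∀ g : ℕ → ℕ, {x ∈ A | ∀ n, x n ≤ g n}.Countable) :
    LindelofSpace (Node A) := by
  constructor
  apply isLindelof_of_countable_subcover
  intro ι U hU hcov
  have h1 : ∀ l : List ℕ, ∃ i b, (W l b : Set (Node A)) ⊆ U i := by
    intro l
    obtain ⟨i, hi⟩ := mem_iUnion.1 (hcov (mem_univ (fin l)))
    obtain ⟨b, hb⟩ := exists_W (hU i) hi
    exact ⟨i, b, hb⟩
  choose i0 b hb using h1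
  have h2 : ∀ x : A, ∃ i, (br x : Node A) ∈ U i := fun x => mem_iUnion.1 (hcov (mem_univ _))
  choose j0 hj using h2
  classical
  let B : ℕ → Finset (List ℕ) := fun n => Nat.rec {[]}
    (fun _ S => S.biUnion fun l => (Finset.range (b l)).image fun k => l ++ [k]) n
  have hB0 : B 0 = {[]} := rfl
  have hBs : ∀ n, B (n + 1) = (B n).biUnion fun l => (Finset.range (b l)).image fun k => l ++ [k] :=
    fun n => rfl
  let g : ℕ → ℕ := fun n => (B n).sup b
  let C : Set A := {x | ∀ n, (x : ℕ → ℕ) n < b (res x n)}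
  have hC : C.Countable := by
    have hin : ∀ x ∈ C, ∀ n, res (x : ℕ → ℕ) n ∈ B n := by
      intro x hx n
      induction n with
      | zero => simp [hB0, res]
      | succ n ih =>
        rw [hBs, res_succ, Finset.mem_biUnion]
        exact ⟨_, ih, Finset.mem_image.2 ⟨_, Finset.mem_range.2 (hx n), rfl⟩⟩
    have hsub : (fun x : A => (x : ℕ → ℕ)) '' C ⊆ {x ∈ A | ∀ n, x n ≤ g n} := by
      rintro _ ⟨x, hx, rfl⟩
      refine ⟨x.2, fun n => (hx n).le.trans ?_⟩
      exact Finset.le_sup (f := b) (hin x hx n)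
    exact Set.countable_of_injective_of_countable_image Subtype.val_injective.injOn
      ((hA g).mono hsub)
  refine ⟨range i0 ∪ j0 '' C, (countable_range i0).union (hC.image _), ?_⟩
  intro s _
  rw [mem_iUnion₂]
  cases s with
  | fin l => exact ⟨i0 l, Or.inl ⟨l, rfl⟩, hb l (fin_mem_W l _)⟩
  | br x =>
    by_cases hx : x ∈ C
    · exact ⟨j0 x, Or.inr ⟨x, hx, rfl⟩, hj x⟩
    · simp only [C, mem_setOf_eq, not_forall, not_lt] at hx
      obtain ⟨n, hn⟩ := hx
      refine ⟨i0 (res x n), Or.inl ⟨_, rfl⟩, hb _ ⟨res_le x n, fun k hk => ?_⟩⟩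
      rw [res_length, seq_br, Option.some_inj] at hk
      rw [← hk]
      exact hn

end Node

end Pool.Agent.Q303.FW
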